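import Mathlib
import Pool.Agent.Y109.PI.Ord
import Pool.Agent.N394.PX.Idx

/-! Degenerate translates for products. -/

set_option autoImplicit false
set_option linter.all false

open Matrix

noncomputable section

namespace Pool.Agent.N394.PX

open Pool.Agent.Y109.PI

section

variable {F : Type*} [Field F] {I J : Type*} [Fintype I] [DecidableEq I] [Fintype J] [DecidableEq J]

theorem alt_conj (N : Matrix I J F) (E : Matrix J J F) (hE : Alt E) : Alt (N * E * Nᵀ) := by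
  have h : ∀ u v, (N * E * Nᵀ) u v = (fun j => N u j) ⬝ᵥ (E *ᵥ (fun j => N v j)) := by
    intro u v
    rw [Matrix.mul_assoc, Matrix.mul_apply]
    rfl
  refine ⟨fun u => ?_, fun u v => ?_⟩
  · rw [h]; exact alt_dot_self hE _
  · rw [h, h]; exact alt_dot hE _ _

theorem alt_inv (D : Matrix J J F) (hD : Alt D) (hdet : D.det ≠ 0) : Alt D⁻¹ := by
  have hu : IsUnit D.det := isUnit_iff_ne_zero.2 hdet
  have h1 : Dᵀ = -D := by
    ext u v
    rw [Matrix.transpose_apply, Matrix.neg_apply]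
    exact hD.2 v u
  have h2 : (D⁻¹)ᵀ = -D⁻¹ := by
    rw [Matrix.transpose_nonsing_inv, h1]
    refine Matrix.inv_eq_right_inv ?_
    rw [neg_mul_neg, Matrix.mul_nonsing_inv D hu]
  have h3 : D⁻¹ = - (D⁻¹ * D * (D⁻¹)ᵀ) := by
    rw [h2, Matrix.nonsing_inv_mul D hu, one_mul, neg_neg]
  have h4 := alt_conj D⁻¹ D hD
  rw [h3]
  exact ⟨fun u => by rw [Matrix.neg_apply, h4.1, neg_zero], fun u v => by
    rw [Matrix.neg_apply, Matrix.neg_apply, h4.2 u v]⟩

end

/-- the relations of a product -/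
def prodRel {I J κ κ' : Type} (w : κ → I → I → ℤ) (w' : κ' → J → J → ℤ) : κ ⊕ κ' → I ⊕ J → I ⊕ J → ℤ :=
  Sum.elim (fun i u v => Sum.elim (fun u => Sum.elim (fun v => w i u v) (fun _ => 0) v) (fun _ => 0) u)
    (fun i u v => Sum.elim (fun _ => 0) (fun u => Sum.elim (fun _ => 0) (fun v => w' i u v) v) u)

/-- **Degenerate translates on a product.** -/
theorem prod_deg {I : Type} [Fintype I] [DecidableEq I] {κ : Type} [Fintype κ] [DecidableEq κ] (s h : ℕ) (hs : 0 < s)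
    (hI : Fintype.card I = 2 * s) (w : Fin s → I → I → ℤ) (w' : κ → Fin (2 * h) → Fin (2 * h) → ℤ) (p : ℕ)
    (hp : p.Prime) (hord : OrdAt p s w)
    (hint : ∃ e : Fin h → κ, ¬ (p : ℤ) ∣ inter h (fun i => dif (w' (e i))))
    (b : Matrix (I ⊕ Fin (2 * h)) (I ⊕ Fin (2 * h)) ℤ) (hb : Alt b) :
    ∃ c : Fin s ⊕ κ → ℤ, (red p (b + ∑ i, c i • dif (prodRel w w' i))).det = 0 := by
  classical
  haveI : Fact p.Prime := ⟨hp⟩
  haveI : NeZero p := ⟨hp.ne_zero⟩
  have hb22 : Alt b.toBlocks₂₂ := ⟨fun u => hb.1 _, fun u v => hb.2 _ _⟩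
  obtain ⟨y, P, hP, hPp⟩ := exists_good' h p hp.pos (fun _ => 0) b.toBlocks₂₂ (fun i => dif (w' i)) hb22
    (fun i => alt_dif _) (fun q hq hqp => by
      obtain ⟨e, he⟩ := hint
      have : q = p := (Nat.prime_dvd_prime_iff_eq hq hp).1 hqp
      subst this
      exact ⟨e, by rwa [zero_add, pow_one]⟩)
  have hPp' : ¬ (p : ℤ) ∣ P := by
    have := hPp p hp dvd_rfl
    rwa [zero_add, pow_one] at this
  set D : Matrix (Fin (2 * h)) (Fin (2 * h)) (ZMod p) := red p (b.toBlocks₂₂ + ∑ i, y i • dif (w' i)) with hDdef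
  have hDalt : Alt D := (hb22.add (Alt.sum _ _ fun i => (alt_dif (w' i)).smul _)).map' _
  have hDdet : D.det ≠ 0 := by
    rw [hDdef, ← red_det, hP]
    intro h0
    have h1 := (ZMod.intCast_zmod_eq_zero_iff_dvd _ _).1 h0
    exact hPp' ((Nat.prime_iff_prime_int.1 hp).dvd_of_dvd_pow h1)
  set B12 : Matrix I (Fin (2 * h)) (ZMod p) := b.toBlocks₁₂.map (Int.castRingHom (ZMod p)) with hB12
  set B21 : Matrix (Fin (2 * h)) I (ZMod p) := b.toBlocks₂₁.map (Int.castRingHom (ZMod p)) with hB21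
  have hB21' : B21 = -B12ᵀ := by
    ext u v
    rw [hB21, hB12, Matrix.neg_apply, Matrix.transpose_apply, Matrix.map_apply, Matrix.map_apply]
    have h1 : b.toBlocks₂₁ u v = - b.toBlocks₁₂ v u := hb.2 _ _
    rw [h1, map_neg]
  have hb11 : Alt (red p b.toBlocks₁₁) := by
    have : Alt b.toBlocks₁₁ := ⟨fun u => hb.1 _, fun u v => hb.2 _ _⟩
    exact this.map' _
  have hc := alt_conj B12 D⁻¹ (alt_inv D hDalt hDdet)
  have h11 : Alt (red p b.toBlocks₁₁ - B12 * D⁻¹ * B21) := by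
    have h1 : red p b.toBlocks₁₁ - B12 * D⁻¹ * B21 = red p b.toBlocks₁₁ + B12 * D⁻¹ * B12ᵀ := by
      rw [hB21', Matrix.mul_neg, sub_neg_eq_add]
    rw [h1]
    exact hb11.add hc
  obtain ⟨⟨x, hx⟩, -⟩ := cwI s hs hI (red p b.toBlocks₁₁ - B12 * D⁻¹ * B21) h11
    (fun i => red p (dif (w i))) (fun i => (alt_dif (w i)).map' _) (by
      rw [OrdAt, Nat.card_eq_fintype_card, Fintype.card_subtype] at hord
      exact hord)
  refine ⟨Sum.elim (fun i => ((x i).val : ℤ)) y, ?_⟩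
  have hblock : red p (b + ∑ i, Sum.elim (fun i => ((x i).val : ℤ)) y i • dif (prodRel w w' i)) =
      Matrix.fromBlocks (red p b.toBlocks₁₁ + ∑ i, x i • red p (dif (w i))) B12 B21 D := by
    rw [red_add_sum]
    ext u v
    rw [Fintype.sum_sum_type]
    rcases u with u | u <;> rcases v with v | v
    · simp [red, dif, prodRel, Matrix.sum_apply, Matrix.toBlocks₁₁]
    · simp [red, dif, prodRel, Matrix.sum_apply, hB12, Matrix.toBlocks₁₂]
    · simp [red, dif, prodRel, Matrix.sum_apply, hB21, Matrix.toBlocks₂₁]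
    · rw [hDdef, red_add_sum]
      simp [red, dif, prodRel, Matrix.sum_apply, Matrix.toBlocks₂₂]
  rw [hblock]
  haveI : Invertible D := Matrix.invertibleOfIsUnitDet D (isUnit_iff_ne_zero.2 hDdet)
  rw [Matrix.det_fromBlocks₂₂, Matrix.invOf_eq_nonsing_inv]
  have h5 : red p b.toBlocks₁₁ + ∑ i, x i • red p (dif (w i)) - B12 * D⁻¹ * B21 =
      red p b.toBlocks₁₁ - B12 * D⁻¹ * B21 + ∑ i, x i • red p (dif (w i)) := by abel
  rw [h5, hx, mul_zero]

section

variable {I : Type*} [Fintype I] [DecidableEq I]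

/-- a degenerate translate modulo a squarefree number -/
theorem ord_deg' {κ : Type} [Fintype κ] (n g : ℕ) (hn : Squarefree n) (hg : 0 < g) (hI : Fintype.card I = 2 * g)
    (w : κ → I → I → ℤ)
    (h : ∀ p : ℕ, p.Prime → p ∣ n → ∀ b : Matrix I I ℤ, Alt b →
      ∃ c : κ → ℤ, (red p (b + ∑ i, c i • dif (w i))).det = 0) (b : Matrix I I ℤ) (hb : Alt b) :
    ∃ (c : κ → ℤ) (e f : Fin (g - 1) → I → ℤ), ∀ u v,
      (n : ℤ) ∣ (b + ∑ i, c i • dif (w i)) u v - (∑ i, wdg (e i) (f i)) u v := by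
  have hn0 : 0 < n := Nat.pos_of_ne_zero hn.ne_zero
  have h1 : ∀ p : ℕ, ∃ (c : κ → ℤ) (e f : Fin (g - 1) × I → ℤ), p.Prime → p ∣ n →
      red p (b + ∑ i, c i • dif (w i)) = ∑ i, wdg (fun u => (e (i, u) : ZMod p)) (fun u => (f (i, u) : ZMod p)) := by
    intro p
    by_cases hp : p.Prime ∧ p ∣ n
    · haveI : Fact p.Prime := ⟨hp.1⟩
      obtain ⟨c, hc⟩ := h p hp.1 hp.2 b hb
      obtain ⟨e, f, hef⟩ := sing_decomp g hg hI (red p (b + ∑ i, c i • dif (w i)))
        ((hb.add (Alt.sum _ _ fun i => (alt_dif (w i)).smul _)).map' _) hc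
      refine ⟨c, fun q => (e q.1 q.2).val, fun q => (f q.1 q.2).val, fun _ _ => ?_⟩
      rw [hef]
      haveI : NeZero p := ⟨hp.1.ne_zero⟩
      simp only [vcast]
    · exact ⟨0, 0, 0, fun a b => absurd ⟨a, b⟩ hp⟩
  choose a e f haef using h1
  obtain ⟨x, hx⟩ := crt_fun n a
  obtain ⟨y, hy⟩ := crt_fun n e
  obtain ⟨y', hy'⟩ := crt_fun n f
  refine ⟨x, fun i u => y (i, u), fun i u => y' (i, u), fun u v => ?_⟩
  refine dvd_of_squarefree n hn _ fun p hp hpn => ?_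
  rw [← ZMod.intCast_zmod_eq_zero_iff_dvd, Int.cast_sub, sub_eq_zero]
  have h2 : ((b + ∑ i, x i • dif (w i)) u v : ZMod p) = red p (b + ∑ i, x i • dif (w i)) u v := rfl
  rw [h2, red_add_sum]
  have h3 : ∀ i, ((x i : ℤ) : ZMod p) = a p i := fun i => hx p hp hpn hn0 i
  simp only [h3]
  rw [← red_add_sum, haef p hp hpn, Matrix.sum_apply, Matrix.sum_apply, Int.cast_sum]
  refine Finset.sum_congr rfl fun i _ => ?_
  simp only [wdg, Matrix.of_apply]
  rw [← hy p hp hpn hn0, ← hy' p hp hpn hn0, ← hy p hp hpn hn0, ← hy' p hp hpn hn0]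
  push_cast
  ring

end

section

variable {G B : Type*} [CommGroup G] [CommGroup B] {s : G →* G →* B}

/-- product of `g - 1` symbols modulo lower terms -/
theorem abs_sing' (hanti : ∀ a b, s a b = (s b a)⁻¹) (n : ℕ) (hn : Squarefree n)
    (htors : ∀ a b, s a b ^ n = 1) (ε : G)
    (H : Subgroup G) (hε : ε ∈ H) (hdiag : ∀ a, s a a = 1 ∨ s a a = s a ε) (V : Subgroup B)
    (hV : ∀ a ∈ H, ∀ b ∈ H, s a b ∈ V) {I : Type*} [Fintype I] [DecidableEq I] {κ : Type} [Fintype κ]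
    (g : ℕ) (hg : 0 < g)
    (hI : Fintype.card I = 2 * g) (z : I → G) (w : κ → I → I → ℤ) (hw : ∀ i, Q s z (w i) ∈ low s H V z)
    (h : ∀ p : ℕ, p.Prime → p ∣ n → ∀ b : Matrix I I ℤ, Alt b →
      ∃ c : κ → ℤ, (red p (b + ∑ i, c i • dif (w i))).det = 0)
    (α : B) (hα : α ∈ Subgroup.closure {γ | ∃ a ∈ H ⊔ Subgroup.closure (Set.range z),
      ∃ b ∈ H ⊔ Subgroup.closure (Set.range z), γ = s a b}) :
    ∃ x y : Fin (g - 1) → G, α * (∏ i, s (x i) (y i))⁻¹ ∈ low s H V z := by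
  obtain ⟨w1, hw1⟩ := exists_Q hanti H V hV z α hα
  obtain ⟨c, e, f, h⟩ := ord_deg' n g hn hg hI w h (dif w1) (alt_dif w1)
  refine ⟨fun i => mon z (e i), fun i => mon z (f i), ?_⟩
  have h1 := mod_low hanti n htors ε H hε hdiag V z (w1 + ∑ i, c i • w i) (g - 1) e f (by
    intro u v
    have e1 : (w1 + ∑ i, c i • w i) u v - (w1 + ∑ i, c i • w i) v u = (dif w1 + ∑ i, c i • dif (w i)) u v := by
      rw [← dif_comb']
      simp only [Pi.add_apply, Matrix.add_apply, Matrix.of_apply, dif]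
      ring
    rw [e1]
    exact h u v)
  rw [Q_add, Q_comb'] at h1
  have hw0 : ∏ i, Q s z (w i) ^ c i ∈ low s H V z :=
    Subgroup.prod_mem _ fun i _ => Subgroup.zpow_mem _ (hw i) _
  have h3 := Subgroup.mul_mem _ (Subgroup.mul_mem _ hw1 h1) (Subgroup.inv_mem _ hw0)
  have e1 : ∀ p q r : B, α * p⁻¹ * (p * q * r) * q⁻¹ = α * r := by
    intro p q r
    calc α * p⁻¹ * (p * q * r) * q⁻¹ = α * r * (p * p⁻¹) * (q * q⁻¹) := by
          simp only [mul_assoc, mul_comm, mul_left_comm]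
      _ = α * r := by rw [mul_inv_cancel, mul_inv_cancel, mul_one, mul_one]
  rw [e1] at h3
  exact h3

end

end Pool.Agent.N394.PX
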